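import Pool.Agent.R313.QM.ZA

set_option autoImplicit false

/-!
# MP_fed7ff_nt: averages of the multiple Dirichlet series over vertical lines continue past `Re w = 1`

Let `A*_M(s; w) = ∑_{d > 1} χ_d(M) d^{-w} L(s, χ_d)^k` over the positive fundamental discriminants `d > 1`: this is
`A_M(s, …, s; w) - ζ(s)^k` in the notation of the problem. Let `ψ` be smooth with compact support, `φ(y) = ∫ ψ(v) e^{ivy} dv`
and `0 < θ < 2/3`. For all `k, M ≥ 1` the function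
`F(w) = ∫ φ(y) A*_M(1/2 + iy; w - iθy) dy`, `Re w > k + 1`,
is such that `(w - 1)^{k(k+1)/2} F(w)` extends to a holomorphic function on `Re w > max(1/2 + 3θ/4, 1 - θ/4)`, of polynomial
growth in vertical strips; the half plane contains the line `Re w = 1`. Moreover
`F(w) - (2π/θ) Φ((w-1)/θ) T_M(1/2 + (w-1)/θ)` extends to a holomorphic function on `Re w > 1/2 + 3θ/4`, of linear growth in
vertical strips, where `Φ(z) = ∫ ψ(v) e^{vz} dv` and `T_M(s)` is the residue of `A_M(s, …, s; w)` at `w = 1`.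
-/

namespace Pool.Agent.Results.MP_fed7ff_nt.AveragesPastOne

open MeasureTheory
open scoped ContDiff

/-- `D` is a fundamental discriminant -/
def IsFund (D : ℤ) : Prop :=
  (D % 4 = 1 ∧ Squarefree D) ∨ ∃ m : ℤ, D = 4 * m ∧ (m % 4 = 2 ∨ m % 4 = 3) ∧ Squarefree m

/-- the Kronecker symbol `χ_D(n) = (D / n)` of a fundamental discriminant, for `n ≥ 1`: the value at `2` is `1` for
`D ≡ 1 mod 8`, `-1` for `D ≡ 5 mod 8` and `0` for even `D`, the rest is the Jacobi symbol -/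
def chi (D : ℤ) (n : ℕ) : ℤ :=
  (if D % 8 = 1 then 1 else if D % 8 = 5 then -1 else 0) ^ (n.factorization 2) *
    jacobiSym D (n / 2 ^ (n.factorization 2))

/-- the L-function `L(s, χ_D)`: the analytic continuation of the Dirichlet series of the function `χ_D`, of period
`|D|` (each residue class modulo `|D|` is represented by a number between `|D|` and `2|D| - 1`) -/
noncomputable def L (D : ℤ) (s : ℂ) : ℂ :=
  if h : D.natAbs ≠ 0 then
    (haveI : NeZero D.natAbs := ⟨h⟩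
     ZMod.LFunction (fun a : ZMod D.natAbs => (chi D (a.val + D.natAbs) : ℂ)) s)
  else 0

open Classical in
/-- the summand at `d` of `A*_M(s; w) = A_M(s, …, s; w) - ζ(s)^k`: the positive fundamental discriminants `d > 1` -/
noncomputable def term (k M : ℕ) (s w : ℂ) (d : ℕ) : ℂ :=
  if IsFund (d : ℤ) ∧ d ≠ 1 then (chi d M : ℂ) * (d : ℂ) ^ (-w) * L d s ^ k else 0

/-- `φ(y) = ∫ ψ(v) e^{ivy} dv` -/
noncomputable def phi (ψ : ℝ → ℂ) (y : ℝ) : ℂ := ∫ v : ℝ, ψ v * Complex.exp (Complex.I * v * y)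

/-- `Φ(z) = ∫ ψ(v) e^{vz} dv` -/
noncomputable def Phi (ψ : ℝ → ℂ) (z : ℂ) : ℂ := ∫ v : ℝ, ψ v * Complex.exp (v * z)

/-- `d_k(n)`, the number of ordered factorisations of `n` into `k` factors -/
def dk (k n : ℕ) : ℕ := (Nat.finMulAntidiag k n).card

open Classical in
/-- `T_M(s) = (3/π²) ∑_{Mn a square} d_k(n) n^{-s} ∏_{p | Mn} p/(p+1)` -/
noncomputable def T (k M : ℕ) (s : ℂ) : ℂ :=
  ∑' n : ℕ, (((if IsSquare (M * n) then 3 / Real.pi ^ 2 * ∏ p ∈ (M * n).primeFactors, ((p : ℝ) / (p + 1)) else 0 : ℝ) : ℂ)) *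
    (dk k n : ℂ) * (n : ℂ) ^ (-s)

/-- the averages over the line: `∫ φ(y) A*_M(1/2 + iy; w - iθy) dy` -/
noncomputable def F (ψ : ℝ → ℂ) (θ : ℝ) (k M : ℕ) (w : ℂ) : ℂ :=
  ∫ y : ℝ, phi ψ y * ∑' d : ℕ, term k M (1 / 2 + Complex.I * y) (w - Complex.I * θ * y) d

lemma phi_eq (ψ : ℝ → ℂ) (y : ℝ) : phi ψ y = W182.KO.P ψ (y * Complex.I) := by
  unfold phi W182.KO.P
  congr 1; funext ξ
  congr 2
  ring

lemma term_eq (k M : ℕ) (y θ : ℝ) (w : ℂ) (d : ℕ) :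
    term k M (1 / 2 + Complex.I * y) (w - Complex.I * θ * y) d =
      R313.QM.at1 k M (1 / 2 + y * Complex.I) (w - θ * y * Complex.I) d := by
  have e1 : (1 / 2 + Complex.I * y : ℂ) = 1 / 2 + y * Complex.I := by ring
  have e2 : (w - Complex.I * θ * y : ℂ) = w - θ * y * Complex.I := by ring
  rw [e1, e2]
  rfl

lemma T_eq (k : ℕ) {M : ℕ} (hM : M ≠ 0) (s : ℂ) : T k M s = R313.QM.TM k M s := by
  unfold T R313.QM.TM
  refine tsum_congr fun n => ?_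
  rcases Nat.eq_zero_or_pos n with h | h
  · subst h
    have h1 : dk k 0 = 0 := by
      unfold dk
      simp
    have h2 : W182.KO.dk k 0 = 0 := h1
    rw [h1, h2]
    simp
  · have h1 : R313.QM.del (M * n) = if IsSquare (M * n) then 3 / Real.pi ^ 2 * ∏ p ∈ (M * n).primeFactors, ((p : ℝ) / (p + 1)) else 0 := by
      unfold R313.QM.del
      split_ifs
      · exact R313.QM.dens_eq (Nat.mul_ne_zero hM h.ne')
      · rfl
    rw [h1]
    rfl

theorem result (k M : ℕ) (hk : 1 ≤ k) (hM : 1 ≤ M) (θ : ℝ) (hθ : 0 < θ) (hθ2 : θ < 2 / 3) (ψ : ℝ → ℂ)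
    (hψ : ContDiff ℝ ∞ ψ) (hc : HasCompactSupport ψ) :
    -- `χ_D` is a nontrivial Dirichlet character modulo `|D|`, with the L-function `L D`
    (∀ D : ℤ, IsFund D → D ≠ 1 → ∃ (_ : NeZero D.natAbs) (χ : DirichletCharacter ℂ D.natAbs), χ ≠ 1 ∧
      (∀ n : ℕ, n ≠ 0 → χ (n : ZMod D.natAbs) = (chi D n : ℂ)) ∧ ∀ s, L D s = DirichletCharacter.LFunction χ s) ∧
    -- absolute convergence for `Re w > k + 1`
    (∀ w : ℂ, k + 1 < w.re →
      (∀ y : ℝ, Summable (term k M (1 / 2 + Complex.I * y) (w - Complex.I * θ * y))) ∧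
      Integrable fun y : ℝ => phi ψ y * ∑' d : ℕ, term k M (1 / 2 + Complex.I * y) (w - Complex.I * θ * y) d) ∧
    -- the continuation
    1 / 2 + 3 / 4 * θ < 1 ∧
    (∃ G : ℂ → ℂ, DifferentiableOn ℂ G {w | 1 / 2 + 3 / 4 * θ < w.re ∧ 1 - θ / 4 < w.re} ∧
      (∀ σ₁ σ₂ : ℝ, 1 / 2 + 3 / 4 * θ < σ₁ → 1 - θ / 4 < σ₁ → ∃ C : ℝ, ∀ w : ℂ, σ₁ ≤ w.re → w.re ≤ σ₂ →
        ‖G w‖ ≤ C * (1 + ‖w‖) ^ (k * (k + 1) + 1)) ∧
      ∀ w : ℂ, k + 1 < w.re → (w - 1) ^ (k * (k + 1) / 2) * F ψ θ k M w = G w) ∧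
    -- the explicit part
    ∃ E : ℂ → ℂ, DifferentiableOn ℂ E {w | 1 / 2 + 3 / 4 * θ < w.re} ∧
      (∀ σ₁ σ₂ : ℝ, 1 / 2 + 3 / 4 * θ < σ₁ → ∃ C : ℝ, ∀ w : ℂ, σ₁ ≤ w.re → w.re ≤ σ₂ → ‖E w‖ ≤ C * (1 + ‖w‖)) ∧
      ∀ w : ℂ, k + 1 < w.re →
        F ψ θ k M w = 2 * Real.pi / θ * Phi ψ ((w - 1) / θ) * T k M (1 / 2 + (w - 1) / θ) + E w := by
  obtain ⟨A, hA0, hA⟩ : ∃ A : ℝ, 0 ≤ A ∧ ∀ v, A < |v| → ψ v = 0 := by
    obtain ⟨R, hR⟩ := hc.isCompact.isBounded.subset_closedBall 0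
    refine ⟨max R 0, le_max_right _ _, fun v hv => ?_⟩
    by_contra h
    have h1 := hR (subset_tsupport _ h)
    rw [Metric.mem_closedBall, dist_zero_right, Real.norm_eq_abs] at h1
    have := le_max_left R 0
    linarith
  have hTF : W182.KO.TF A ψ := ⟨hψ, hc, fun v hv => hA v (hv.trans_le (le_abs_self v))⟩
  have hk0 : k ≠ 0 := by omega
  have hM0 : M ≠ 0 := by omega
  have hK : R313.QM.KK k = k * (k + 1) / 2 := by
    unfold R313.QM.KK
    rw [Finset.sum_range_id]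
    congr 1
    rw [Nat.add_sub_cancel, mul_comm]
  have hK2 : 2 * R313.QM.KK k = k * (k + 1) := by
    rw [hK]
    exact Nat.mul_div_cancel' (even_iff_two_dvd.mp (Nat.even_mul_succ_self k))
  have hk1 : (1:ℝ) ≤ k := by exact_mod_cast hk
  have hF : ∀ w : ℂ, k + 1 < w.re → F ψ θ k M w = ∑' d : ℕ, R313.QM.AT ψ θ k M w d := by
    intro w hw
    rw [← (R313.QM.AM_int hTF θ k hM0 hw).2.2]
    unfold F
    simp_rw [term_eq, phi_eq]
  refine ⟨fun D hD h1 => ?_, fun w hw => ?_, by linarith, ?_, ?_⟩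
  · obtain ⟨hne, χ, h2, h3⟩ := R313.QM.char_exists hD h1
    exact ⟨hne, χ, h2, h3, fun s => R313.QM.LD_eq χ h3 s⟩
  · obtain ⟨h1, h2, -⟩ := R313.QM.AM_int hTF θ k hM0 hw
    refine ⟨fun y => ?_, ?_⟩
    · exact (h1 y).congr fun d => (term_eq k M y θ w d).symm
    · simp_rw [term_eq, phi_eq]
      exact h2
  · obtain ⟨G, hG1, hG2, hG3⟩ := R313.QM.cont hTF hA0 hA hθ (by linarith) hk0 hM0
    rw [hK2] at hG2
    rw [hK] at hG3
    refine ⟨G, hG1, hG2, fun w hw => ?_⟩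
    rw [← hG3 w (by linarith), hF w hw]
  · refine ⟨R313.QM.EE ψ θ k M, R313.QM.EE_diff hTF hA0 hA hθ k hM0, fun σ₁ σ₂ h1 => R313.QM.EE_bound hTF hA0 hA hθ k hM0 h1, fun w hw => ?_⟩
    rw [hF w hw, (R313.QM.AT_sum hTF hA0 hA hθ (by linarith) k hM0 (by linarith)).2, T_eq k hM0]
    rfl

end Pool.Agent.Results.MP_fed7ff_nt.AveragesPastOne
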